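import Pool.Agent.helper88.T7.SpecR7

set_option autoImplicit false

/-! # T7, row ZFN: the final sum -/

namespace Pool.Agent.T7

open Finset NumberField Pool.Agent.helper3.FT Pool.Agent.helper47.RA Pool.Agent.T5 Pool.Agent.T6
open scoped nonZeroDivisors

theorem ZFN_SFle {φ ψ : ∀ D : ℤ, Fld D → ℝ} (h : ∀ D E, φ D E ≤ ψ D E) (D : ℤ) : SF φ D ≤ SF ψ D := by
  unfold SF
  split_ifs
  · exact h _ _
  · exact le_rfl

theorem ZFN_SFnn {φ : ∀ D : ℤ, Fld D → ℝ} (h : ∀ D E, 0 ≤ φ D E) (D : ℤ) : 0 ≤ SF φ D := by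
  unfold SF
  split_ifs
  · exact h _ _
  · exact le_rfl

theorem ZFN_SFadd (φ ψ : ∀ D : ℤ, Fld D → ℝ) (D : ℤ) :
    SF (fun D E => φ D E + ψ D E) D = SF φ D + SF ψ D := by
  unfold SF
  split_ifs
  · rfl
  · norm_num

theorem ZFN_TDle {φ ψ : ∀ D : ℤ, Fld D → ℝ} (h : ∀ D E, φ D E ≤ ψ D E) (N : ℝ) : TD7 φ N ≤ TD7 ψ N := by
  unfold TD7
  exact Finset.sum_le_sum fun D _ => ZFN_SFle h D

theorem ZFN_TDadd (φ ψ : ∀ D : ℤ, Fld D → ℝ) (N : ℝ) :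
    TD7 (fun D E => φ D E + ψ D E) N = TD7 φ N + TD7 ψ N := by
  unfold TD7
  rw [← Finset.sum_add_distrib]
  exact Finset.sum_congr rfl fun D _ => ZFN_SFadd φ ψ D

theorem ZFN_TTle {φ ψ : ∀ D : ℤ, Fld D → ℝ} (h : ∀ D E, φ D E ≤ ψ D E) (N : ℝ) : TT7 φ N ≤ TT7 ψ N := by
  unfold TT7
  exact Finset.sum_le_sum fun D _ => ZFN_SFle h D

theorem ZFN_TTnn {φ : ∀ D : ℤ, Fld D → ℝ} (h : ∀ D E, 0 ≤ φ D E) (N : ℝ) : 0 ≤ TT7 φ N := by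
  unfold TT7
  exact Finset.sum_nonneg fun D _ => ZFN_SFnn h D

theorem ZFN_c0 : 2 * c0 = 36 / Real.pi ^ 3 * (1 - 1 / √2) := by
  unfold c0
  have : Real.pi ≠ 0 := Real.pi_ne_zero
  field_simp
  ring

theorem ZFN_sqrt (N : ℝ) (hN : 0 ≤ N) (i : ℕ) : √(N / 2 ^ i) = (1 / √2) ^ i * √N := by
  have h2 : ((1 : ℝ) / √2) ^ 2 = 1 / 2 := by
    rw [div_pow, Real.sq_sqrt (by norm_num)]; norm_num
  have h : N / 2 ^ i = ((1 / √2) ^ i * √N) ^ 2 := by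
    rw [mul_pow, Real.sq_sqrt hN, ← pow_mul, mul_comm i 2, pow_mul, h2, one_div, inv_pow]
    field_simp
  rw [h, Real.sqrt_sq (by positivity)]

theorem ZFN_sum (n : ℕ) : ∑ i ∈ range n, ((1 : ℝ) / √2) ^ i ≤ 4 ∧
    (1 - 1 / √2) * ∑ i ∈ range n, ((1 : ℝ) / √2) ^ i = 1 - (1 / √2) ^ n := by
  have h1 : (1 - 1 / √2) * ∑ i ∈ range n, ((1 : ℝ) / √2) ^ i = 1 - (1 / √2) ^ n := mul_neg_geom_sum _ n
  have h2 : (1 : ℝ) / √2 ≤ 3 / 4 := by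
    have : (4 : ℝ) / 3 ≤ √2 := Real.le_sqrt_of_sq_le (by norm_num)
    rw [div_le_iff₀ (by positivity)]
    linarith
  have h3 : (0 : ℝ) ≤ (1 / √2) ^ n := by positivity
  have h4 : (0 : ℝ) ≤ ∑ i ∈ range n, ((1 : ℝ) / √2) ^ i := Finset.sum_nonneg fun i _ => by positivity
  refine ⟨?_, h1⟩
  have h5 : (1 / 4) * ∑ i ∈ range n, ((1 : ℝ) / √2) ^ i ≤ (1 - 1 / √2) * ∑ i ∈ range n, ((1 : ℝ) / √2) ^ i :=
    mul_le_mul_of_nonneg_right (by linarith) h4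
  linarith

theorem ZFN_sets (A Y : ℝ) : (∀ D E, fU A Y D E ≤ fS A Y D E) ∧ (∀ D E, fS A Y D E ≤ fU A Y D E + fD A Y D E) ∧
    (∀ D E, fS A Y D E ≤ fC Y D E) := by
  refine ⟨fun D E => ?_, fun D E => ?_, fun D E => ?_⟩
  · unfold fU fS
    have : (CU7 E.K A Y).ncard ≤ (SP7 E.K A Y).ncard :=
      Set.ncard_le_ncard (fun c hc => ⟨hc.1, Or.inl hc.2⟩) (Set.toFinite _)
    exact_mod_cast this
  · unfold fU fS fD
    have h1 : SP7 E.K A Y ⊆ CU7 E.K A Y ∪ CD7 E.K A Y := by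
      intro c hc
      rcases hc.2 with h | h
      · exact Or.inl ⟨hc.1, h⟩
      · exact Or.inr ⟨hc.1, h⟩
    have : (SP7 E.K A Y).ncard ≤ (CU7 E.K A Y).ncard + (CD7 E.K A Y).ncard :=
      (Set.ncard_le_ncard h1 (Set.toFinite _)).trans (Set.ncard_union_le _ _)
    exact_mod_cast this
  · unfold fS fC
    have : (SP7 E.K A Y).ncard ≤ (CLS E.K Y).ncard :=
      Set.ncard_le_ncard (fun c hc => hc.1) (Set.toFinite _)
    exact_mod_cast this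

theorem ZFN (h1 : ZDY_stmt) (h2 : ZPC_stmt) (h3 : ZSW_stmt) (h4 : ZTT_stmt) : ZFN_stmt := by
  intro ε hε
  obtain ⟨A₁, hA₁, H2⟩ := h2 (ε / 20) (by positivity)
  obtain ⟨A₂, hA₂, H3⟩ := h3 (ε / 20) (by positivity)
  refine ⟨max A₁ A₂, hA₁.trans (le_max_left _ _), fun A hA => ?_⟩
  obtain ⟨κ₁, N₁, hκ₁, K2⟩ := H2 A ((le_max_left _ _).trans hA)
  obtain ⟨N₂, K3⟩ := H3 A ((le_max_right _ _).trans hA)
  obtain ⟨C, N₃, hC, K4⟩ := h4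
  have hr0 : (0 : ℝ) < 1 / √2 := by positivity
  have hr1 : (1 : ℝ) / √2 < 1 := by
    rw [div_lt_one (by positivity)]
    exact Real.lt_sqrt_of_sq_lt (by norm_num)
  obtain ⟨i₀, hi₀⟩ := exists_pow_lt_of_lt_one (show (0 : ℝ) < ε / (4 * (C + 2)) by positivity) hr1
  have hi₁ : (C + 2) * (1 / √2) ^ i₀ ≤ ε / 4 := by
    have h5 : (C + 2) * (1 / √2) ^ i₀ ≤ (C + 2) * (ε / (4 * (C + 2))) :=
      mul_le_mul_of_nonneg_left hi₀.le (by linarith)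
    refine h5.trans (le_of_eq ?_)
    field_simp
  refine ⟨min κ₁ 1 * (1 / √2) ^ i₀, 2 ^ i₀ * (|N₁| + |N₂| + |N₃| + 1), by positivity, ?_⟩
  intro N Y hN hY hY2
  have hpi := Real.pi_gt_three
  have h2i : (1 : ℝ) ≤ 2 ^ i₀ := one_le_pow₀ (by norm_num)
  have hNb : |N₁| + |N₂| + |N₃| + 1 ≤ N / 2 ^ i₀ := by
    rw [le_div_iff₀ (by positivity)]
    linarith
  have ha1 := abs_nonneg N₁
  have ha2 := abs_nonneg N₂
  have ha3 := abs_nonneg N₃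
  have hb1 := le_abs_self N₁
  have hb2 := le_abs_self N₂
  have hb3 := le_abs_self N₃
  have hN0 : 0 < N := by
    have : 0 < N / 2 ^ i₀ := by linarith
    by_contra hcon
    have : N / 2 ^ i₀ ≤ 0 := div_nonpos_of_nonpos_of_nonneg (not_lt.mp hcon) (by positivity)
    linarith
  have hY0 : 0 ≤ Y := (Real.rpow_nonneg hN0.le _).trans hY
  -- the position of N / 2 ^ i
  have hpos : ∀ i : ℕ, i ≤ i₀ → |N₁| + |N₂| + |N₃| + 1 ≤ N / 2 ^ i ∧ (N / 2 ^ i) ^ (2 / 5 : ℝ) ≤ Y ∧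
      Y ≤ κ₁ * √(N / 2 ^ i) ∧ Y ≤ √(N / 2 ^ i) := by
    intro i hi
    have hpow : (2 : ℝ) ^ i ≤ 2 ^ i₀ := pow_le_pow_right₀ (by norm_num) hi
    have e1 : N / 2 ^ i₀ ≤ N / 2 ^ i := div_le_div_of_nonneg_left hN0.le (by positivity) hpow
    have e2 : N / 2 ^ i ≤ N := div_le_self hN0.le (one_le_pow₀ (by norm_num))
    have e3 : (N / 2 ^ i) ^ (2 / 5 : ℝ) ≤ N ^ (2 / 5 : ℝ) := Real.rpow_le_rpow (by positivity) e2 (by norm_num)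
    have e4 : (1 / √2) ^ i₀ ≤ (1 / √2) ^ i := pow_le_pow_of_le_one hr0.le hr1.le hi
    have e5 : Y ≤ min κ₁ 1 * √(N / 2 ^ i) := by
      rw [ZFN_sqrt N hN0.le i]
      calc Y ≤ min κ₁ 1 * (1 / √2) ^ i₀ * √N := hY2
        _ ≤ min κ₁ 1 * (1 / √2) ^ i * √N := by gcongr
        _ = _ := by ring
    refine ⟨hNb.trans e1, e3.trans hY, e5.trans ?_, e5.trans ?_⟩
    · exact mul_le_mul_of_nonneg_right (min_le_left _ _) (Real.sqrt_nonneg _)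
    · calc min κ₁ 1 * √(N / 2 ^ i) ≤ 1 * √(N / 2 ^ i) :=
            mul_le_mul_of_nonneg_right (min_le_right _ _) (Real.sqrt_nonneg _)
        _ = _ := one_mul _
  obtain ⟨V, hV⟩ : ∃ V : ℝ, V = Y * √N := ⟨_, rfl⟩
  have hV0 : 0 ≤ V := by rw [hV]; positivity
  have hslice : ∀ i : ℕ, i ∈ range i₀ → |TD7 (fS A Y) (N / 2 ^ i) - 2 * c0 * ((1 / √2) ^ i * V)| ≤
      2 * (ε / 20) * ((1 / √2) ^ i * V) := by
    intro i hi
    obtain ⟨p1, p2, p3, p4⟩ := hpos i (Finset.mem_range.mp hi).le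
    have q1 := K2 (N / 2 ^ i) Y (by linarith) p2 p3
    have q2 := K3 (N / 2 ^ i) Y (by linarith) p2 p4
    have e1 : Y * √(N / 2 ^ i) = (1 / √2) ^ i * V := by
      rw [ZFN_sqrt N hN0.le i, hV]; ring
    rw [e1] at q1 q2
    obtain ⟨s1, s2, -⟩ := ZFN_sets A Y
    have t1 : TD7 (fU A Y) (N / 2 ^ i) ≤ TD7 (fS A Y) (N / 2 ^ i) := ZFN_TDle s1 _
    have t2 : TD7 (fS A Y) (N / 2 ^ i) ≤ TD7 (fU A Y) (N / 2 ^ i) + TD7 (fD A Y) (N / 2 ^ i) := by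
      rw [← ZFN_TDadd]
      exact ZFN_TDle s2 _
    rw [abs_le] at q1 ⊢
    have hp : 0 ≤ (ε / 20) * ((1 / √2) ^ i * V) := by positivity
    constructor
    · linarith [q1.1]
    · linarith [q1.2]
  have hnn : ∀ D E, 0 ≤ fS A Y D E := fun D E => by unfold fS; positivity
  have hdec := (h1 (fS A Y) hnn).2 N hN0 i₀
  have hR0 : 0 ≤ TT7 (fS A Y) (N / 2 ^ i₀) := ZFN_TTnn hnn _
  have hR1 : TT7 (fS A Y) (N / 2 ^ i₀) ≤ C * ((1 / √2) ^ i₀ * V) := by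
    obtain ⟨p1, p2, p3, p4⟩ := hpos i₀ le_rfl
    have q := K4 (N / 2 ^ i₀) Y (by linarith) p2 p4
    have e1 : Y * √(N / 2 ^ i₀) = (1 / √2) ^ i₀ * V := by
      rw [ZFN_sqrt N hN0.le i₀, hV]; ring
    rw [e1] at q
    exact (ZFN_TTle (ZFN_sets A Y).2.2 _).trans q
  -- the sum
  obtain ⟨g1, g2⟩ := ZFN_sum i₀
  have hS : |∑ i ∈ range i₀, TD7 (fS A Y) (N / 2 ^ i) -
      ∑ i ∈ range i₀, 2 * c0 * ((1 / √2) ^ i * V)| ≤ 2 * (ε / 20) * 4 * V := by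
    rw [← Finset.sum_sub_distrib]
    refine (Finset.abs_sum_le_sum_abs _ _).trans ((Finset.sum_le_sum hslice).trans ?_)
    rw [← Finset.mul_sum, ← Finset.sum_mul]
    have : (∑ i ∈ range i₀, ((1 : ℝ) / √2) ^ i) * V ≤ 4 * V := mul_le_mul_of_nonneg_right g1 hV0
    nlinarith
  have hM : ∑ i ∈ range i₀, 2 * c0 * ((1 / √2) ^ i * V) = 36 / Real.pi ^ 3 * V - 36 / Real.pi ^ 3 * ((1 / √2) ^ i₀ * V) := by
    rw [← Finset.mul_sum, ← Finset.sum_mul, ZFN_c0]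
    calc 36 / Real.pi ^ 3 * (1 - 1 / √2) * ((∑ i ∈ range i₀, ((1 : ℝ) / √2) ^ i) * V)
        = 36 / Real.pi ^ 3 * (((1 - 1 / √2) * ∑ i ∈ range i₀, ((1 : ℝ) / √2) ^ i) * V) := by ring
      _ = 36 / Real.pi ^ 3 * ((1 - (1 / √2) ^ i₀) * V) := by rw [g2]
      _ = _ := by ring
  have h36 : 36 / Real.pi ^ 3 ≤ 2 := by
    rw [div_le_iff₀ (by positivity)]
    have : (27 : ℝ) ≤ Real.pi ^ 3 := by
      calc (27 : ℝ) = 3 ^ 3 := by norm_num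
        _ ≤ Real.pi ^ 3 := pow_le_pow_left₀ (by norm_num) hpi.le 3
    linarith
  have h360 : 0 ≤ 36 / Real.pi ^ 3 := by positivity
  have hrV : 0 ≤ (1 / √2) ^ i₀ * V := by positivity
  have hx1 : 36 / Real.pi ^ 3 * ((1 / √2) ^ i₀ * V) ≤ 2 * ((1 / √2) ^ i₀ * V) :=
    mul_le_mul_of_nonneg_right h36 hrV
  have hx0 : 0 ≤ 36 / Real.pi ^ 3 * ((1 / √2) ^ i₀ * V) := mul_nonneg h360 hrV
  have hx2 : (C + 2) * ((1 / √2) ^ i₀ * V) ≤ ε / 4 * V := by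
    calc (C + 2) * ((1 / √2) ^ i₀ * V) = ((C + 2) * (1 / √2) ^ i₀) * V := by ring
      _ ≤ _ := mul_le_mul_of_nonneg_right hi₁ hV0
  have hx3 : (C + 2) * ((1 / √2) ^ i₀ * V) = C * ((1 / √2) ^ i₀ * V) + 2 * ((1 / √2) ^ i₀ * V) := by ring
  have hεV : 0 ≤ ε * V := by positivity
  have hCV : 0 ≤ C * ((1 / √2) ^ i₀ * V) := by positivity
  rw [← hV, hdec]
  rw [hM] at hS
  rw [abs_le] at hS ⊢
  constructor
  · linarith [hS.1]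
  · linarith [hS.2]

end Pool.Agent.T7
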