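import Pool.Agent.helper4.T7.SpecQ

set_option autoImplicit false

/-!
# T7, block Q: equidistribution along any filter inside the range of EQC7
-/

namespace Pool.Agent.T7

open Finset Filter Pool.Agent.T5 Pool.Agent.T6

/-- `EQC7` gives `EQF F` for every filter `F` with `N → ∞`, `Y Y₂/N → 0` inside the range `Rg η` -/
theorem EQF_of (h : EQC7_stmt) : ∃ η : ℝ, 0 < η ∧ η ≤ 1 / 100 ∧ ∀ F : Filter (ℝ × ℝ × ℝ),
    (∀ N₀ : ℝ, ∀ᶠ x in F, N₀ ≤ x.1) → (∀ ρ : ℝ, 0 < ρ → ∀ᶠ x in F, x.2.1 * x.2.2 ≤ ρ * x.1) →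
    (∀ᶠ x in F, Rg η x.1 x.2.1 x.2.2) → EQF F := by
  obtain ⟨η, h0, h1, H⟩ := h
  refine ⟨η, h0, h1, fun F hN hρ hR => ?_⟩
  intro a b ha0 ha1 ha4 hab e c he hc ε hε
  obtain ⟨C, N₀, hC, H1⟩ := H a b ha0 ha1 ha4 hab e c he hc (ε / 2) (by positivity)
  have hCp : 0 < C := by linarith
  have hρ0 : 0 < (ε / (2 * C)) ^ (2 / 3 : ℝ) := Real.rpow_pos_of_pos (by positivity) _
  filter_upwards [hN N₀, hN 1, hρ _ hρ0, hR] with x hx1 hx2 hx3 hx4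
  intro S hS
  have hN0 : 0 < x.1 := by linarith
  have key := H1 x.1 x.2.1 x.2.2 hx1 hx4 S hS
  have hYY : 0 ≤ x.2.1 * x.2.2 := (Real.rpow_nonneg hN0.le _).trans hx4.r4
  have hq : (x.2.1 * x.2.2 / x.1) ^ (3 / 2 : ℝ) ≤ ε / (2 * C) := by
    have hle : x.2.1 * x.2.2 / x.1 ≤ (ε / (2 * C)) ^ (2 / 3 : ℝ) := by
      rw [div_le_iff₀ hN0]; exact hx3
    calc (x.2.1 * x.2.2 / x.1) ^ (3 / 2 : ℝ) ≤ ((ε / (2 * C)) ^ (2 / 3 : ℝ)) ^ (3 / 2 : ℝ) :=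
          Real.rpow_le_rpow (by positivity) hle (by norm_num)
      _ = ε / (2 * C) := by
          rw [← Real.rpow_mul (by positivity)]; norm_num
  have hc2 : C * (x.2.1 * x.2.2 / x.1) ^ (3 / 2 : ℝ) ≤ ε / 2 := by
    calc C * (x.2.1 * x.2.2 / x.1) ^ (3 / 2 : ℝ) ≤ C * (ε / (2 * C)) :=
          mul_le_mul_of_nonneg_left hq hCp.le
      _ = ε / 2 := by field_simp
  unfold mainE
  refine key.trans ?_
  have : ε / 2 + C * (x.2.1 * x.2.2 / x.1) ^ (3 / 2 : ℝ) ≤ ε := by linarith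
  exact mul_le_mul_of_nonneg_right this hYY

end Pool.Agent.T7
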