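import Pool.Agent.helper95.T6.AllE0
import Pool.Agent.helper8.T5.AKR
import Pool.Agent.helper14.T5.CPS
import Pool.Agent.helper29.T7.QTP
import Pool.Agent.helper44.T7.QAR
import Pool.Agent.helper47.T7.QP2
import Pool.Agent.helper64.T7.QEF
import Pool.Agent.helper72.T7.QEC
import Pool.Agent.helper74.T7.QCG
import Pool.Agent.helper89.T7.QER
import Pool.Agent.helper96.T7.QSZ
import Pool.Agent.helper94.T7.TF
import Pool.Agent.helper4.T7.QE2

set_option autoImplicit false

/-! # T7, block Q assembled: equidistribution in boxes up to the critical size -/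

namespace Pool.Agent.T7

open Pool.Agent.T5 Pool.Agent.T6

theorem allQP2 : QP2_stmt := QP2 (QAR AKR) (QCG RE1 RE2 TR) QTP WWY

/-- **block Q** -/
theorem allEQC7 : EQC7_stmt := QEC CPS ESZ (QER allQP2 allESN QSZ DYB ESZ allLFS)

end Pool.Agent.T7
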