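import Pool.Agent.helper95.T6.AllE0
import Pool.Agent.helper25.T7.RNP
import Pool.Agent.helper41.T7.RSN
import Pool.Agent.helper43.T7.RPC
import Pool.Agent.helper49.T7.RUF
import Pool.Agent.helper54.T7.RNU

set_option autoImplicit false

/-! # T7, block R assembled: central tuples with `p ∣ R` -/

namespace Pool.Agent.T7

open Pool.Agent.T5 Pool.Agent.T6

theorem allRSN : RSN_stmt := RSN (RNP WDM allGP allGR allN1 allN2 allN4) allWSM WDL

/-- **block R** -/
theorem allRUB : RUB_stmt :=
  RUF (RPC RE1 RE2 TR WFJ WWY) allRSN RNU (CZ (SZ TR)) (CBR DYB (CZ (SZ TR))) ESZ allLFS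

end Pool.Agent.T7
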