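import Pool.Agent.helper4.T7.QE2
import Pool.Agent.helper85.T7.Defs
import Pool.Agent.helper20.T5.VLM

set_option autoImplicit false

/-!
# T7: the filter `F7 η`, rows QE2 and TAX
-/

namespace Pool.Agent.T7

open Finset Filter Pool.Agent.T5 Pool.Agent.T6
open scoped Topology

/-- eventually along `F7 η` -/
theorem F7_iff (η : ℝ) (P : ℝ × ℝ × ℝ → Prop) : (∀ᶠ x in F7 η, P x) ↔
    ∃ ρ₀ N₀ : ℝ, 0 < ρ₀ ∧ ∀ N Y Y₂ : ℝ, N₀ ≤ N → 0 < Y → Rg η N Y Y₂ → Y * Y₂ ≤ ρ₀ * N → P (N, Y, Y₂) := by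
  unfold F7
  rw [eventually_inf_principal, eventually_comap]
  constructor
  · intro h
    rw [(atTop_basis.prod (nhdsGT_basis (0 : ℝ))).eventually_iff] at h
    obtain ⟨⟨N₀, ρ₀⟩, ⟨-, hρ⟩, h2⟩ := h
    refine ⟨ρ₀ / 2, max N₀ 1, by simpa using hρ, fun N Y Y₂ hN hY hR hle => ?_⟩
    have hN0 : 0 < N := lt_of_lt_of_le one_pos ((le_max_right _ _).trans hN)
    have hρ' : (0 : ℝ) < ρ₀ := hρ
    have hYY : 0 < Y * Y₂ := (Real.rpow_pos_of_pos hN0 _).trans_le hR.r4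
    refine h2 (x := (N, Y * Y₂ / N)) ?_ (N, Y, Y₂) rfl ⟨hY, hR⟩
    refine Set.mk_mem_prod ?_ ?_
    · exact (le_max_left _ _).trans hN
    · refine ⟨by positivity, ?_⟩
      rw [div_lt_iff₀ hN0]
      nlinarith
  · rintro ⟨ρ₀, N₀, hρ, h⟩
    rw [(atTop_basis.prod (nhdsGT_basis (0 : ℝ))).eventually_iff]
    refine ⟨⟨max N₀ 1, ρ₀⟩, ⟨trivial, hρ⟩, ?_⟩
    rintro ⟨N', q⟩ hx ⟨N, Y, Y₂⟩ hxy ⟨hY, hR⟩
    have h1 := hx.1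
    have h2 := hx.2
    simp only [Prod.mk.injEq] at hxy
    obtain ⟨e1, e2⟩ := hxy
    simp only [Set.mem_Ici] at h1
    have hNN : max N₀ 1 ≤ N := by rw [e1]; exact h1
    have hN0 : 0 < N := lt_of_lt_of_le one_pos ((le_max_right _ _).trans hNN)
    refine h N Y Y₂ ((le_max_left _ _).trans hNN) hY hR ?_
    have h3 : Y * Y₂ / N < ρ₀ := by
      rw [e2]; exact h2.2
    rw [div_lt_iff₀ hN0] at h3
    exact h3.le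

/-- **QE2** -/
theorem QE2 (h : EQC7_stmt) : ∃ η₀ : ℝ, 0 < η₀ ∧ η₀ ≤ 1 / 100 ∧ ∀ η : ℝ, 0 < η → η ≤ η₀ → EQF (F7 η) := by
  obtain ⟨η₀, h0, h1, H⟩ := EQF_of h
  refine ⟨η₀, h0, h1, fun η hη hle => H (F7 η) (fun N₀ => ?_) (fun ρ hρ => ?_) ?_⟩
  · rw [F7_iff]
    exact ⟨1, N₀, one_pos, fun N Y Y₂ hN _ _ _ => hN⟩
  · rw [F7_iff]
    exact ⟨ρ, 1, hρ, fun N Y Y₂ hN _ _ hle => hle⟩
  · rw [F7_iff]
    exact ⟨1, 1, one_pos, fun N Y Y₂ hN hY hR _ => Rg_mono hle hN hY.le hR⟩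

/-- **TAX**: block TAS in the regime of T7 -/
theorem TAX (h : EQC7_stmt) (hTF : TF_stmt) (hVLM : T5V.VLM_stmt) : TAS7_stmt := by
  obtain ⟨η₀, h0, h1, H⟩ := QE2 h
  obtain ⟨C, hC, HC⟩ := hVLM
  refine ⟨η₀, h0, h1, T5V.Iv, C, fun κ hκ hκ1 => (HC κ hκ (by linarith)).1, ?_⟩
  intro κ hκ hκ1 w hw ε hε
  have hpos : ∀ᶠ x in F7 η₀, 0 < x.1 ∧ 0 < x.2.1 ∧ 0 < x.2.2 := by
    rw [F7_iff]
    refine ⟨1, 1, one_pos, fun N Y Y₂ hN hY hR _ => ⟨by linarith, hY, lt_of_lt_of_le hY hR.r1⟩⟩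
  have key := hTF (F7 η₀) hpos (H η₀ h0 le_rfl) κ hκ hκ1 w hw ε hε
  rw [F7_iff] at key
  obtain ⟨ρ₀, N₀, hρ, hk⟩ := key
  exact ⟨ρ₀, N₀, hρ, fun N Y Y₂ hN hY hR hle F hF => hk N Y Y₂ hN hY hR hle F hF⟩

end Pool.Agent.T7
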