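import Pool.Agent.helper4.T7.AllQ
import Pool.Agent.helper4.T7.AllR
import Pool.Agent.helper4.T7.TAX

set_option autoImplicit false

/-! # T7: the proved interfaces of helper4's blocks -/

namespace Pool.Agent.T7

open Pool.Agent.T5 Pool.Agent.T6

/-- **TAS7** -/
theorem allTAS7 : TAS7_stmt := TAX allEQC7 TF T5V.VLM

end Pool.Agent.T7
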