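import Pool.Agent.helper85.T7.SpecS

set_option autoImplicit false

/-! # T7, row SLL7R: the limit for the lower bound of the slices -/

namespace Pool.Agent.T7

open Finset NumberField Pool.Agent.helper3.FT Pool.Agent.helper47.RA Pool.Agent.T5 Pool.Agent.T6

theorem SLL7R (hSLP7 : SLP7_stmt) (hMW7 : MW7_stmt) : SLL7R_stmt := by
  intro hCND hTAS hTOT hSLU
  obtain ⟨η₁, hη₁, -, μ, C, hμ, hT⟩ := hTAS
  obtain ⟨δ, hδ, hD⟩ := hSLP7 hCND hTOT hSLU η₁ μ hη₁ hT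
  refine ⟨δ, hδ, fun ε hε => ?_⟩
  have hπ := Real.pi_pos
  have hπ3 := Real.pi_gt_three
  have hc0 : 0 ≤ c0 := by
    unfold c0
    have h1 : (1 : ℝ) / √2 ≤ 1 := by
      rw [div_le_one (by positivity)]
      exact Real.one_le_sqrt.2 (by norm_num)
    have h2 : (0 : ℝ) ≤ 1 - 1 / √2 := by linarith
    positivity
  have h6 : (0 : ℝ) < 6 / Real.pi ^ 2 := by positivity
  have h61 : 6 / Real.pi ^ 2 ≤ 1 := by
    rw [div_le_one (by positivity)]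
    nlinarith
  -- the choice of the parameters
  obtain ⟨η, hη, hηe⟩ : ∃ η : ℝ, 0 < η ∧ η * (1 + c0) ≤ ε * Real.pi :=
    ⟨ε * Real.pi / (1 + c0), by positivity, by rw [div_mul_cancel₀ _ (by positivity)]⟩
  obtain ⟨κ, hκ, hκ1, hκC⟩ : ∃ κ : ℝ, 0 < κ ∧ κ ≤ 1 / 100 ∧ C * κ ≤ η / 4 := by
    refine ⟨min (1 / 100) (η / (4 * (|C| + 1))), by positivity, min_le_left _ _, ?_⟩
    have h1 : C * min (1 / 100) (η / (4 * (|C| + 1))) ≤ (|C| + 1) * (η / (4 * (|C| + 1))) := by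
      refine mul_le_mul ((le_abs_self C).trans (by linarith)) (min_le_right _ _) (by positivity) (by positivity)
    refine h1.trans (le_of_eq ?_)
    field_simp
  obtain ⟨C', hC', hw⟩ := hD κ hκ hκ1
  have hMW : Filter.Tendsto (fun w : ℕ => MW w / (w : ℝ) ^ (1 / 8 : ℝ)) Filter.atTop (nhds 0) := hMW7
  have hSEU : Filter.Tendsto (fun w : ℕ => ∏ p ∈ pr w, (1 - 1 / (p : ℝ) ^ 2)) Filter.atTop
      (nhds (6 / Real.pi ^ 2)) := SEU
  have hlim : Filter.Tendsto (fun w : ℕ => μ κ * (6 / Real.pi ^ 2) * (∏ p ∈ pr w, (1 - 1 / (p : ℝ) ^ 2)) -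
      C' * (MW w / (w : ℝ) ^ (1 / 8 : ℝ))) Filter.atTop (nhds (μ κ * (6 / Real.pi ^ 2) * (6 / Real.pi ^ 2) - C' * 0)) :=
    (hSEU.const_mul _).sub (hMW.const_mul _)
  rw [mul_zero, sub_zero] at hlim
  have hL : Real.pi * c0 - η / 4 ≤ μ κ * (6 / Real.pi ^ 2) * (6 / Real.pi ^ 2) := by
    have h1 := (abs_le.1 (hμ κ hκ hκ1)).1
    have h2 : Real.pi ^ 2 / 2 * (1 - 1 / √2) - η / 4 ≤ μ κ := by linarith
    have h3 : (Real.pi ^ 2 / 2 * (1 - 1 / √2) - η / 4) * (6 / Real.pi ^ 2) ^ 2 ≤ μ κ * (6 / Real.pi ^ 2) ^ 2 :=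
      mul_le_mul_of_nonneg_right h2 (by positivity)
    have h4 : Real.pi ^ 2 / 2 * (1 - 1 / √2) * (6 / Real.pi ^ 2) ^ 2 = Real.pi * c0 := by
      unfold c0
      ring
    have h5 : η / 4 * (6 / Real.pi ^ 2) ^ 2 ≤ η / 4 * 1 :=
      mul_le_mul_of_nonneg_left (pow_le_one₀ h6.le h61) (by positivity)
    calc Real.pi * c0 - η / 4 ≤ Real.pi * c0 - η / 4 * (6 / Real.pi ^ 2) ^ 2 := by linarith
      _ = (Real.pi ^ 2 / 2 * (1 - 1 / √2) - η / 4) * (6 / Real.pi ^ 2) ^ 2 := by rw [sub_mul, h4]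
      _ ≤ μ κ * (6 / Real.pi ^ 2) ^ 2 := h3
      _ = _ := by ring
  have hev : ∀ᶠ w : ℕ in Filter.atTop, Real.pi * c0 - η / 2 <
      μ κ * (6 / Real.pi ^ 2) * (∏ p ∈ pr w, (1 - 1 / (p : ℝ) ^ 2)) - C' * (MW w / (w : ℝ) ^ (1 / 8 : ℝ)) :=
    hlim.eventually (lt_mem_nhds (by linarith))
  obtain ⟨w, hw1, hw2⟩ := (hev.and (Filter.eventually_ge_atTop 2)).exists
  obtain ⟨l₀, κ₀, N₀, hl₀, hκ₀, hN₀⟩ := hw w hw2 (η / 2) (by positivity)
  refine ⟨l₀, κ₀, max N₀ 1, hl₀, hκ₀, fun N Y hN hY hY' => ?_⟩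
  have hN1 : 1 ≤ N := (le_max_right _ _).trans hN
  have hYp : 0 ≤ Y := (Real.rpow_nonneg (by linarith) _).trans hY
  have h1 := hN₀ N Y ((le_max_left _ _).trans hN) hY hY'
  have hP : 0 ≤ Y * √N := by positivity
  set S : ℝ := ∑ D ∈ DN N, ((cA D Y : ℝ) - (cE D Y (l₀ * √N) : ℝ)) with hSdef
  set P : ℝ := Y * √N with hPdef
  have h2 : (Real.pi * c0 - η) * P ≤ (Real.pi + η / 2) * S :=
    (mul_le_mul_of_nonneg_right (by linarith) hP).trans h1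
  have h3 : (c0 - ε) * (Real.pi + η / 2) ≤ Real.pi * c0 - η := by
    have : 0 ≤ ε * η := by positivity
    have : 0 ≤ c0 * η := by positivity
    nlinarith
  have h4 : (Real.pi + η / 2) * ((c0 - ε) * P) ≤ (Real.pi + η / 2) * S := by
    calc (Real.pi + η / 2) * ((c0 - ε) * P) = (c0 - ε) * (Real.pi + η / 2) * P := by ring
      _ ≤ (Real.pi * c0 - η) * P := mul_le_mul_of_nonneg_right h3 hP
      _ ≤ _ := h2
  exact le_of_mul_le_mul_left h4 (by positivity)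

end Pool.Agent.T7
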