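import Pool.Agent.helper85.T7.SpecS

set_option autoImplicit false

/-! # T7, row SLU7R: the limit for the upper bound of the slices -/

namespace Pool.Agent.T7

open Finset NumberField Pool.Agent.helper3.FT Pool.Agent.helper47.RA Pool.Agent.T5 Pool.Agent.T6

/-- `cE ≤ cA` -/
theorem SLU7R_cE (D : ℤ) (Y B : ℝ) : (cE D Y B : ℝ) ≤ (cA D Y : ℝ) := by
  by_cases hne : Nonempty (Fld D)
  · have e1 : cA D Y = (IA hne.some.K Y).ncard := by unfold cA; rw [dif_pos hne]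
    have e2 : cE D Y B = (EX hne.some.Q Y B).ncard := by unfold cE; rw [dif_pos hne]
    rw [e1, e2]
    have h : (EX hne.some.Q Y B).ncard ≤ (IA hne.some.K Y).ncard :=
      Set.ncard_le_ncard (fun a ha => ha.1) (SFA.1 hne.some.K Y)
    exact_mod_cast h
  · have e2 : cE D Y B = 0 := by unfold cE; rw [dif_neg hne]
    rw [e2, Nat.cast_zero]
    exact Nat.cast_nonneg _

/-- the real analysis of the limit -/
theorem SLU7R_real (μ0 q μκ P η c A V x y ε : ℝ) (hη : 0 < η) (hη1 : η ≤ 1) (hc : Real.pi * c = μ0 * q * q)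
    (hμ : |μκ - μ0| ≤ η) (hP : |P - q| ≤ η)
    (hx : x ≤ 3 * η) (hy : y ≤ 2 * η) (hA : 0 ≤ A) (hV : 0 ≤ V)
    (hηε : η * (|q| * (|q| + 1 + |μ0|) + 2 + 3 * (|c| + ε)) ≤ Real.pi * ε)
    (h : (Real.pi - x) * A ≤ (μκ * q * P + y) * V) : A ≤ (c + ε) * V := by
  have hpi := Real.pi_gt_three
  have hpi4 := Real.pi_le_four
  rcases lt_or_ge (0 : ℝ) (Real.pi - 3 * η) with hpos | hpos
  · have h1 : (Real.pi - 3 * η) * A ≤ (Real.pi - x) * A :=
      mul_le_mul_of_nonneg_right (by linarith) hA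
    have hPa : |P| ≤ |q| + 1 := by
      have : P = q + (P - q) := by ring
      rw [this]
      exact (abs_add_le _ _).trans (by linarith)
    have h2 : μκ * q * P - μ0 * q * q ≤ η * (|q| * (|q| + 1 + |μ0|)) := by
      have e : μκ * q * P - μ0 * q * q = q * ((μκ - μ0) * P + μ0 * (P - q)) := by ring
      rw [e]
      refine (le_abs_self _).trans ?_
      rw [abs_mul]
      have e2 : |(μκ - μ0) * P + μ0 * (P - q)| ≤ η * (|q| + 1) + |μ0| * η := by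
        refine (abs_add_le _ _).trans (add_le_add ?_ ?_)
        · rw [abs_mul]
          exact mul_le_mul hμ hPa (abs_nonneg _) hη.le
        · rw [abs_mul]
          exact mul_le_mul_of_nonneg_left hP (abs_nonneg _)
      calc |q| * |(μκ - μ0) * P + μ0 * (P - q)| ≤ |q| * (η * (|q| + 1) + |μ0| * η) :=
            mul_le_mul_of_nonneg_left e2 (abs_nonneg _)
        _ = _ := by ring
    have h3 : μκ * q * P + y ≤ (Real.pi - 3 * η) * (c + ε) := by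
      have hcc : c ≤ |c| := le_abs_self c
      have h4 : η * c ≤ η * |c| := mul_le_mul_of_nonneg_left hcc hη.le
      nlinarith
    have h4 : (Real.pi - 3 * η) * A ≤ (Real.pi - 3 * η) * ((c + ε) * V) := by
      calc (Real.pi - 3 * η) * A ≤ (μκ * q * P + y) * V := h1.trans h
        _ ≤ ((Real.pi - 3 * η) * (c + ε)) * V := mul_le_mul_of_nonneg_right h3 hV
        _ = _ := by ring
    exact le_of_mul_le_mul_left h4 hpos
  · exfalso
    linarith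

theorem SLU7R (hSUE7 : SUE7_stmt) (hMW7 : MW7_stmt) : SLU7R_stmt := by
  intro hTD hTAS
  obtain ⟨η₁, hη₁, -, μ, C₀, hμ, hT⟩ := hTAS
  obtain ⟨δ, C, hδ, hC, hmain⟩ := hSUE7 hTD η₁ μ hη₁ hT
  refine ⟨δ, hδ, fun ε hε => ?_⟩
  have hpi := Real.pi_gt_three
  obtain ⟨μ0, hμ0⟩ : ∃ μ0 : ℝ, μ0 = Real.pi ^ 2 / 2 * (1 - 1 / √2) := ⟨_, rfl⟩
  obtain ⟨q, hq⟩ : ∃ q : ℝ, q = 6 / Real.pi ^ 2 := ⟨_, rfl⟩
  have hcc : Real.pi * c0 = μ0 * q * q := by
    rw [hμ0, hq]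
    unfold c0
    ring
  -- the small number
  obtain ⟨B, hB⟩ : ∃ B : ℝ, B = |q| * (|q| + 1 + |μ0|) + 2 + 3 * (|c0| + ε) := ⟨_, rfl⟩
  have hB0 : 0 < B := by
    rw [hB]
    positivity
  obtain ⟨η, hη⟩ : ∃ η : ℝ, η = min 1 (Real.pi * ε / B) := ⟨_, rfl⟩
  have hη0 : 0 < η := by
    rw [hη]
    exact lt_min one_pos (by positivity)
  have hη1 : η ≤ 1 := by rw [hη]; exact min_le_left _ _
  have hηB : η * B ≤ Real.pi * ε := by
    have : η ≤ Real.pi * ε / B := by rw [hη]; exact min_le_right _ _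
    rwa [le_div_iff₀ hB0] at this
  obtain ⟨κ, hκ⟩ : ∃ κ : ℝ, κ = min (1 / 100) (η / (C + |C₀|)) := ⟨_, rfl⟩
  have hden : 0 < C + |C₀| := by positivity
  have hκ0 : 0 < κ := by
    rw [hκ]
    exact lt_min (by norm_num) (by positivity)
  have hκ1 : κ ≤ 1 / 100 := by rw [hκ]; exact min_le_left _ _
  have hκη : κ * (C + |C₀|) ≤ η := by
    have : κ ≤ η / (C + |C₀|) := by rw [hκ]; exact min_le_right _ _
    rwa [le_div_iff₀ hden] at this
  have hCκ : C * κ ≤ η := by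
    have : 0 ≤ κ * |C₀| := by positivity
    linarith
  have hCκ' : C₀ * κ ≤ η := by
    have h1 : C₀ * κ ≤ |C₀| * κ := mul_le_mul_of_nonneg_right (le_abs_self _) hκ0.le
    have h2 : 0 ≤ κ * C := by positivity
    linarith
  obtain ⟨C', hC', hm2⟩ := hmain κ hκ0 hκ1
  have hw : ∃ w : ℕ, 2 ≤ w ∧ C' * (MW w / (w : ℝ) ^ (1 / 8 : ℝ)) ≤ η ∧
      |(∏ p ∈ pr w, (1 - 1 / (p : ℝ) ^ 2)) - q| ≤ η := by
    have e1 : ∀ᶠ w : ℕ in Filter.atTop, MW w / (w : ℝ) ^ (1 / 8 : ℝ) < η / C' :=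
      (show Filter.Tendsto (fun w : ℕ => MW w / (w : ℝ) ^ (1 / 8 : ℝ)) Filter.atTop (nhds 0) from
        hMW7).eventually_lt_const (by positivity)
    have e2 : ∀ᶠ w : ℕ in Filter.atTop, |(∏ p ∈ pr w, (1 - 1 / (p : ℝ) ^ 2)) - q| ≤ η := by
      have h3 : SEU_stmt := SEU
      unfold SEU_stmt at h3
      rw [← hq] at h3
      have h4 := (Metric.tendsto_nhds.1 h3) η hη0
      filter_upwards [h4] with w hw
      rw [Real.dist_eq] at hw
      exact hw.le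
    obtain ⟨w, h5, h6, h7⟩ := ((Filter.eventually_ge_atTop 2).and (e1.and e2)).exists
    refine ⟨w, h5, ?_, h7⟩
    have h8 : 0 < C' := by linarith
    rw [lt_div_iff₀ h8] at h6
    linarith
  obtain ⟨w, hw2, hw3, hw4⟩ := hw
  obtain ⟨K₀, κ₀, N₀, hK₀, hκ₀, hN₀⟩ := hm2 w hw2 η hη0
  refine ⟨K₀, κ₀, max N₀ 1, hK₀, hκ₀, fun N Y hN hY hY2 => ?_⟩
  have hN0 : N₀ ≤ N := (le_max_left _ _).trans hN
  have hN1 : (1 : ℝ) ≤ N := (le_max_right _ _).trans hN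
  have hY0 : 0 ≤ Y := (Real.rpow_nonneg (by linarith) _).trans hY
  have h := hN₀ N Y hN0 hY hY2
  have hA : 0 ≤ ∑ D ∈ DN N, ((cA D Y : ℝ) - (cE D Y (K₀ * Y) : ℝ)) :=
    Finset.sum_nonneg fun D _ => sub_nonneg.2 (SLU7R_cE D Y _)
  refine SLU7R_real μ0 q (μ κ) (∏ p ∈ pr w, (1 - 1 / (p : ℝ) ^ 2)) η c0
    (∑ D ∈ DN N, ((cA D Y : ℝ) - (cE D Y (K₀ * Y) : ℝ))) (Y * √N)
    (C * κ + C' * (MW w / (w : ℝ) ^ (1 / 8 : ℝ)) + η)
    (C' * (MW w / (w : ℝ) ^ (1 / 8 : ℝ)) + η) ε hη0 hη1 hcc ?_ hw4 (by linarith) (by linarith) hA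
    (mul_nonneg hY0 (Real.sqrt_nonneg _)) (by rw [← hB]; exact hηB) ?_
  · rw [hμ0]
    exact (hμ κ hκ0 hκ1).trans hCκ'
  · rw [← hq] at h
    refine h.trans (le_of_eq ?_)
    ring

end Pool.Agent.T7
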