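import Pool.Agent.helper95.T6.SpecE
import Pool.Agent.helper94.T7.DefsF

set_option autoImplicit false

/-!
# T7, block Q: two-sided equidistribution in boxes and classes up to the critical size

Output: `EQC7_stmt` (from `LFS_stmt`): the same main term as `EQC_stmt` of T5, for all `Y, Y₂` in the range `Rg η N Y Y₂`, with the
error `(ε + C (Y Y₂/N)^(3/2)) Y Y₂` (`C` depends on `ε`, the box and the class).  Notation: `S = Y Y₂`, `ϱ = S/N`, `H₀ = S^(5/2)/N²`.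
Idea: the indicator function of a box is between two sums of shifted tents `tw L m * tw L' g` (WWY bounds the sum of every tent without logarithms).
-/

namespace Pool.Agent.T7

open Finset Pool.Agent.helper3.FT Pool.Agent.T5 Pool.Agent.T6

/-- EQC7 (output): equidistribution in boxes -/
def EQC7_stmt : Prop :=
  ∃ η : ℝ, 0 < η ∧ η ≤ 1 / 100 ∧ ∀ a b : Fin 5 → ℝ, 0 < a 0 → 0 < a 1 → 0 < a 4 → (∀ i, a i < b i) →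
  ∀ (e : ℕ) (c : Fin 5 → ℤ), 1 ≤ e → (∀ p : ℕ, p.Prime → p ∣ e → ¬ ((p : ℤ) ∣ c 0 ∧ (p : ℤ) ∣ c 1)) →
  ∀ ε : ℝ, 0 < ε → ∃ C N₀ : ℝ, 1 ≤ C ∧ ∀ N Y Y₂ : ℝ, N₀ ≤ N → Rg η N Y Y₂ →
  ∀ F : Finset Tpl, (∀ t, t ∈ F ↔ InCell N Y Y₂ a b e c t) →
    |(F.card : ℝ) - Y * Y₂ *
      ((((a 0) ^ 2)⁻¹ - ((b 0) ^ 2)⁻¹) / 2 * Real.log (b 1 / a 1) * (b 2 - a 2) * (b 3 - a 3) *
        (b 4 - a 4) * (6 / Real.pi ^ 2) / ((∏ p ∈ e.primeFactors, (1 - 1 / (p : ℝ) ^ 2)) *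
          ((e : ℝ) ^ 4 * (e1 e (c 0).natAbs : ℝ))))| ≤ (ε + C * (Y * Y₂ / N) ^ (3 / 2 : ℝ)) * (Y * Y₂)

/-! ## Rows -/

open Classical in
/-- **QAR** (medium; from AKR; copy of ARC, `Pool/Agent/helper97/T5/ARC.lean`, with weights and arcs `(c, c + l]`).  Equidistribution in arcs.
Proof.  As ARC with `∑ w` in place of the number of points (`S_h = ∑ w_i e(h x_i)`, `‖S_{-h}‖ = ‖S_h‖`).  `η' = η/8`, `E = l ∑_{h ≤ 2H} ‖S_h‖`, `W = ∑ w`.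
Upper bound for any arc `A = (c, c+l]`: AKR with `u = c - η'l`, `v = c + l + η'l` (`l ≤ 1/4`), `t = η' l`: `(1 - 1/(16 (Hη'l)³)) ∑_A w ≤ ∑ w_i f(x_i) ≤ W (1+2η')l + 2(1+2η') E`; for `H l ≥ R` this gives `∑_A w ≤ (1 + 3η') W l + 8 E`.
Lower bound: `u = c + η'l`, `v = c + l - η'l`: `W (1-2η') l - 2 E ≤ ∑ w f(x) ≤ ∑_A w + ∑_{x_i ∉ A} w_i f(x_i)`; cover the complement of `A` modulo 1 by the arcs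
`(c + j l, c + (j+1) l]` and `(c - j l, c - (j-1) l]`, `1 ≤ j ≤ 1/(2l) + 1`: on these `f ≤ 1/(16 H³ ((j-1+η') l)³)`; by the upper bound the sum is at most `C (H l η')^(-3) (W l + E)`.  `R = C/η'^2` is enough. -/
def QAR_stmt : Prop := ∀ η : ℝ, 0 < η → η ≤ 1 → ∃ R C : ℝ, 1 ≤ R ∧ 1 ≤ C ∧ ∀ {ι : Type} (s : Finset ι) (w x : ι → ℝ) (c l : ℝ) (H : ℕ),
    0 < l → l ≤ 1 / 4 → R ≤ H * l → (∀ i ∈ s, 0 ≤ w i) →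
    |∑ i ∈ s.filter (fun i => ∃ z : ℤ, c < x i - z ∧ x i - z ≤ c + l), w i - (∑ i ∈ s, w i) * l| ≤
      η * ((∑ i ∈ s, w i) * l) + C * ∑ h ∈ Icc 1 (2 * H), l * ‖∑ i ∈ s, (w i : ℂ) * e (h * x i)‖

/-- **QCG** (short-medium; from RE1, RE2, TR of T5; see EQP, or WCL).  The tuples of one pair and one class of `R` as one congruence.
Proof.  RE1 with `q₁ = q₂ = r = 1`, `s = e'`: `ResG n k 1 1 1 e' α β γ`, which implies `ResG n k 1 1 1 1 α β γ`.  RE2 with `c = c₄`, `c' = 0`: `c₀`, and `n³ k e' ∣ z - (α m² + β m g + γ g² + c₀)` iff `n³ ∣ z k⁴ + m g k² - g² n²`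
(this is `IsT.c1`) and `k e' ∣ z n² - m² - k c₄`.  The latter gives `k ∣ z n² - m²` (`IsT.c2`), then `k RR t = z n² - m²` (TR, or `Int.mul_ediv_cancel'`), and `k e' ∣ k (RR t - c₄)` iff `e' ∣ RR t - c₄`. -/
def QCG_stmt : Prop :=
  ∀ n k e' : ℕ, 1 ≤ n → 1 ≤ k → 1 ≤ e' → Nat.Coprime n (k * e') → ∃ α β γ : ℤ, ResG n k 1 1 1 1 α β γ ∧
    ∀ c₄ : ℤ, ∃ c₀ : ℤ, ∀ m g z : ℤ, (IsT ((n, k), (m, g, z)) ∧ (e' : ℤ) ∣ RR ((n, k), (m, g, z)) - c₄) ↔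
      (n : ℤ) ^ 3 * k * e' ∣ z - (α * m ^ 2 + β * m * g + γ * g ^ 2 + c₀)

/-- **QTP** (short-medium, Mathlib only).  The indicator function of an interval between two sums of tents.
Proof.  For every integer `m`: `∑_{j ∈ ℤ} tw L (m - j (2L+1)) = (2L+1)/L` (only the two `j` with `|m - j (2L+1)| ≤ 2L` count, for `m = j (2L+1)` only one; `tw L (m) + tw L (m - (2L+1)) = (2L+1)/L` for `0 ≤ m ≤ 2L+1`).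
`J` = the `j` with `[j(2L+1) - 2L, j(2L+1) + 2L]` meeting `(x, y]` (that is `x < j(2L+1) + 2L` and `j(2L+1) - 2L ≤ y`), `J'` = the `j` with `x < j(2L+1) - 2L` and `j(2L+1) + 2L ≤ y`; both are finite sets of consecutive integers,
`(2L+1) #J ≤ y - x + 4L + (2L+1) ≤ y - x + 8L` and `(2L+1) #J' ≥ y - x - 4L - (2L+1) ≥ y - x - 8L`.  For `m ∈ (x, y]` all the `j` with `tw ≠ 0` are in `J`; for `m ∉ (x, y]` no `j ∈ J'` has `tw L (m - j(2L+1)) ≠ 0`. -/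
def QTP_stmt : Prop :=
  ∀ (L : ℕ) (x y : ℝ), 1 ≤ L → x < y → ∃ J J' : Finset ℤ, (J.card : ℝ) * (2 * L + 1) ≤ y - x + 8 * L ∧ y - x - 8 * L ≤ (J'.card : ℝ) * (2 * L + 1) ∧
    (J'.card : ℝ) * (2 * L + 1) ≤ y - x ∧
    (∀ m : ℤ, x < m → (m : ℝ) ≤ y → 1 ≤ (L : ℝ) / (2 * L + 1) * ∑ j ∈ J, tw L (m - j * (2 * L + 1))) ∧
    (∀ m : ℤ, (L : ℝ) / (2 * L + 1) * ∑ j ∈ J', tw L (m - j * (2 * L + 1)) ≤ 1) ∧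
    (∀ m : ℤ, ¬ (x < m ∧ (m : ℝ) ≤ y) → ∑ j ∈ J', tw L (m - j * (2 * L + 1)) = 0) ∧
    ∑ m ∈ Icc (-(2 * L : ℤ)) (2 * L), tw L m = (2 * L + 1) ^ 2 / L

/-- **QP2** (medium-long; from QAR, QCG, QTP, WWY).  One pair, two-sided.
Proof.  `Q = n³ k e'`, `l = (z₂ - z₁)/Q`.  QCG gives `a = (α, β, γ)` and `c₀`; `m = c₂ + e m'`, `g = c₃ + e g'`: the tuples of `F` are the `(m', g')` with `m' ∈ (x, y] = ((m₁ - c₂)/e, (m₂ - c₂)/e]`, `g' ∈ (x', y']` (the same with `g`) such that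
`z₁ < q(m', g') + Q z' ≤ z₂` for some integer `z'` (then unique, `l ≤ 1/4`), `q(m', g') = α m² + β m g + γ g² + c₀`.  Let `φ = q/Q`, `c = z₁/Q`: the condition is `c < φ - z ≤ c + l` for some integer `z`.
QTP for `(x, y], L` and for `(x', y'], L'`: `#F ≤ (L/(2L+1)) (L'/(2L'+1)) ∑_{j ∈ J₁, j' ∈ J₂} ∑_{|m'| ≤ 2L, |g'| ≤ 2L'} tw L m' tw L' g' [φ(m' + j(2L+1), g' + j'(2L'+1)) in the arc]`; QAR for every `(j, j')`: the total weight is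
`(2L+1)²(2L'+1)²/(L L')`, so the main terms sum to `(1 + η) l · #J₁ (2L+1) #J₂ (2L'+1) ≤ (1 + η) l (M + 8L)(G + 8L')`, `M = (m₂-m₁)/e`, `G = (g₂-g₁)/e`; the exponential sums are `TS L L' ![h e² α/Q, h e² β/Q, h e² γ/Q, *, *]` times a number of
absolute value 1 (the shift changes only the linear terms), `h e² α/Q = (h (e (e/e'))) α/(n³ k)`: WWY: `‖TS‖ ≤ √(C L L' near)`; `#J₁ ≤ M/L + 4` (from `#J₁ (2L+1) ≤ M + 8L`).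
Lower bound: the same with `J'` (if `M ≥ 8L` and `G ≥ 8L'`; otherwise `M G ≤ 8 L G + 8 L' M` and `#F ≥ 0`): main terms `≥ (1 - η) l (M - 8L)(G - 8L')`. -/
def QP2_stmt : Prop :=
  ∀ η : ℝ, 0 < η → η ≤ 1 → ∃ R C : ℝ, 1 ≤ R ∧ 1 ≤ C ∧ ∀ n k q e' : ℕ, 1 ≤ n → 1 ≤ k → 1 ≤ q → e' ∣ q → Nat.Coprime n (k * e') →
    ∃ a : ℤ × ℤ × ℤ, RT n k 1 1 1 a ∧ ∀ (c₂ c₃ c₄ : ℤ) (m₁ m₂ g₁ g₂ z₁ z₂ : ℝ) (L L' H : ℕ) (F : Finset Tpl), m₁ < m₂ → g₁ < g₂ → z₁ < z₂ →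
      1 ≤ L → 1 ≤ L' → 4 * (z₂ - z₁) ≤ (n : ℝ) ^ 3 * k * e' → R * ((n : ℝ) ^ 3 * k * e') ≤ H * (z₂ - z₁) →
      (∀ t, t ∈ F ↔ (IsT t ∧ t.1 = (n, k) ∧ m₁ < t.2.1 ∧ (t.2.1 : ℝ) ≤ m₂ ∧ g₁ < t.2.2.1 ∧ (t.2.2.1 : ℝ) ≤ g₂ ∧ z₁ < t.2.2.2 ∧ (t.2.2.2 : ℝ) ≤ z₂ ∧
        (q : ℤ) ∣ t.2.1 - c₂ ∧ (q : ℤ) ∣ t.2.2.1 - c₃ ∧ (e' : ℤ) ∣ RR t - c₄)) →
      |(F.card : ℝ) - (m₂ - m₁) / q * ((g₂ - g₁) / q) * ((z₂ - z₁) / ((n : ℝ) ^ 3 * k * e'))| ≤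
        (z₂ - z₁) / ((n : ℝ) ^ 3 * k * e') * (η * (((m₂ - m₁) / q + 8 * L) * ((g₂ - g₁) / q + 8 * L')) +
          (8 * L * ((g₂ - g₁) / q) + 8 * L' * ((m₂ - m₁) / q) + 64 * L * L') +
          C * ((m₂ - m₁) / (q * L) + 4) * ((g₂ - g₁) / (q * L') + 4) * (√(L * L' : ℝ) * NS L L' (2 * H + 1) (q * (q / e')) n k a))

/-- **QSZ** (medium, numerical; as ENL / WNU, `Pool/Agent/helper51/T6/ENL.lean`).  Sizes for one block.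
Proof.  `η = min (τ/(100 (B+1))) (1/100)`.  `b = (Y₂/Y)^(1/4)`, `H₀ = S^(5/2)/N²`, `x = √H₀`: `sN³ sK = Y H₀`, `x b⁵ = sK³/sM = H₀ sG/sN³`, `x b = sN² sK/sM = H₀ sM/sN³ = sK³/sG`, `x/b = sN³/sM`, `x/b⁵ = sN³/sG`, `(sN/sK) b = 1/b`,
`sM sG = S²/N`, `sN sK = S^(3/2)/N = H₀ N/S`.  `L = ⌈κ sM/q⌉`, `L' = ⌈κ sG/q⌉` (`sM, sG → ∞`: at most twice the real numbers), `H = ⌈R N₁³ K₁ e'/(v Y)⌉ ≍ H₀`; `ρ = C₂ x`, `C₂` depending on all the parameters.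
All constants may depend on `c₀, C₀, κ, v, R, q, e'`.  `64 v Y ≤ N₁³K₁ e'` because `N₁³ K₁ ≥ c Y H₀` and `H₀ → ∞`.  Last inequality: `ρ^(3/2) ≤ C T^(3/4)`, `T = 2H + 1 ≤ C H₀ ≤ C N₁K₁` (`S ≤ N`), `Y/(N₁³K₁) ≤ C/H₀`, `√(sM sG) sN sK = S (S/N)^(3/2)`.
`b^B ≤ N^(η B/4) ≤ T^τ` as `T ≥ N^(1/4)`. -/
def QSZ_stmt : Prop :=
  ∀ (B : ℕ) (τ : ℝ), 0 < τ → ∃ η : ℝ, 0 < η ∧ η ≤ 1 / 100 ∧ ∀ (c₀ C₀ κ v R : ℝ) (q e' : ℕ), 0 < c₀ → 1 ≤ C₀ → 0 < κ → κ ≤ 1 → 0 < v → 1 ≤ R →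
    1 ≤ q → e' ∣ q → ∃ C₁ N₀ : ℝ, 1 ≤ C₁ ∧ ∀ N Y Y₂ : ℝ, N₀ ≤ N → Rg η N Y Y₂ → ∀ N₁ K₁ : ℕ, Blk c₀ C₀ N Y Y₂ N₁ K₁ →
    ∃ (L L' H : ℕ) (b ρ : ℝ), EB N₁ K₁ L L' (2 * H + 1) (q * (q / e')) 1 1 1 b ρ ∧ b ^ B ≤ ((2 * H + 1 : ℕ) : ℝ) ^ τ ∧
      κ * sM N Y Y₂ / q ≤ (L : ℝ) ∧ (L : ℝ) ≤ 2 * κ * sM N Y Y₂ / q ∧ κ * sG N Y Y₂ / q ≤ (L' : ℝ) ∧ (L' : ℝ) ≤ 2 * κ * sG N Y Y₂ / q ∧
      R * ((N₁ : ℝ) ^ 3 * K₁ * e') ≤ H * (v * Y) ∧ 64 * (v * Y) ≤ (N₁ : ℝ) ^ 3 * K₁ * e' ∧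
      Y / ((N₁ : ℝ) ^ 3 * K₁) * (√(L * L' : ℝ) * ((2 * H + 1 : ℕ) * (N₁ * K₁) +
        ρ ^ (3 / 2 : ℝ) * (((2 * H + 1 : ℕ) : ℝ) ^ (5 / 4 : ℝ) + N₁ * K₁ * ((2 * H + 1 : ℕ) : ℝ) ^ (1 / 4 : ℝ)))) ≤
        C₁ * ((Y * Y₂) * (Y * Y₂ / N) ^ (3 / 2 : ℝ))

/-- QEE: the error in boxes, pair by pair -/
def QEE_stmt : Prop :=
  ∃ η : ℝ, 0 < η ∧ η ≤ 1 / 100 ∧ ∀ a b : Fin 5 → ℝ, 0 < a 0 → 0 < a 1 → 0 < a 4 → (∀ i, a i < b i) →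
  ∀ (e : ℕ) (c : Fin 5 → ℤ), 1 ≤ e → (∀ p : ℕ, p.Prime → p ∣ e → ¬ ((p : ℤ) ∣ c 0 ∧ (p : ℤ) ∣ c 1)) →
  ∀ ε : ℝ, 0 < ε → ∃ C N₀ : ℝ, 1 ≤ C ∧ ∀ N Y Y₂ : ℝ, N₀ ≤ N → Rg η N Y Y₂ →
  ∀ (F : Finset Tpl) (W : Finset (ℕ × ℕ)), (∀ t, t ∈ F ↔ InCell N Y Y₂ a b e c t) →
    (∀ p, p ∈ W ↔ (a 0 * sN N Y Y₂ < p.1 ∧ (p.1 : ℝ) ≤ b 0 * sN N Y Y₂ ∧ a 1 * sK N Y Y₂ < p.2 ∧ (p.2 : ℝ) ≤ b 1 * sK N Y Y₂ ∧
      Nat.Coprime p.1 p.2 ∧ (e : ℤ) ∣ (p.1 : ℤ) - c 0 ∧ (e : ℤ) ∣ (p.2 : ℤ) - c 1)) →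
    ∑ p ∈ W, |((F.filter (fun t => t.1 = p)).card : ℝ) - ((b 2 - a 2) * sM N Y Y₂ / e) *
      ((b 3 - a 3) * sG N Y Y₂ / e) * ((b 4 - a 4) * Y) / ((p.1 : ℝ) ^ 3 * p.2 * (e1 e (c 0).natAbs : ℝ))| ≤
      (ε + C * (Y * Y₂ / N) ^ (3 / 2 : ℝ)) * (Y * Y₂)

/-- **QER** (medium-long; from QP2, ESN, QSZ, DYB, ESZ; compare EQE, `Pool/Agent/helper2/T5/EQE.lean`): `LFS_stmt → QEE_stmt`.
Proof.  LFS gives `y₀, B, C₀, τ`; `η` from QSZ.  `e' = e1 e (c 0).natAbs` divides `e`, is coprime to every `n ≡ c 0 (e)`, and `e1 e n = e'` for these `n`.  `κ ≤ 1` and `η₁` small (chosen at the end, depending on `a, b, e, ε`), `R, C` from QP2 for `η₁`, `v = b 4 - a 4`, `c₀, C₀'` such that the blocks are `Blk`.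
DYB for `[a 0 sN, b 0 sN]` and `[a 1 sK, b 1 sK]`: boundedly many blocks `N₁, K₁` (`N₁ < 2n`, `n ≤ N₁`), every `p ∈ W` lies in one of them; the pairs of `W` in a block form `W' ⊆ pairs N₁ K₁ 1`.  QSZ gives `L, L', H, b, ρ`.
For `p ∈ W'` QP2 with `m₁ = a 2 sM`, .., `z₂ = b 4 Y` (`64 v Y ≤ N₁³K₁e'` gives `4 (z₂ - z₁) ≤ n³ k e'` as `n³ k ≥ N₁³K₁/16`; `R n³ k e' ≤ R N₁³K₁e' ≤ H v Y`); the set `F.filter (t.1 = p)` is described by the conditions of QP2 (`e1 e p.1 = e'`).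
With `(m₂ - m₁)/e = (b 2 - a 2) sM/e`, `L ≤ 2 κ sM/e`, `(m₂ - m₁)/(e L) ≤ (b 2 - a 2)/κ`: the first two parts are at most `C(a,b) (η₁ + κ) (v Y/(n³ k e')) sM sG/e²`; `∑_{p ∈ W} 1/(n³ k) ≤ (b 0 sN)(b 1 sK)/((a 0 sN)³ a 1 sK)` and `sM sG = Y₂ sN²`:
in total at most `C(a,b) (η₁ + κ) Y Y₂ ≤ ε Y Y₂`.  The third part: `v Y/(n³ k e') ≤ 16 v Y/(N₁³K₁)`, ESN (`y = 1`, `P_i = 1`, frequencies `2H + 1`, multiplier `e (e/e')`; `(1 + b^B T^(-τ)) ≤ 2`) and the last inequality of QSZ. -/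
def QER_stmt : Prop := LFS_stmt → QEE_stmt

/-- **QEC** (short-medium; from QEE, CPS, ESZ; compare EQD, `Pool/Agent/helper14/T5/EQD.lean`): `QEE_stmt → EQC7_stmt`.
Proof.  `F.card = ∑_{p ∈ W} #{t ∈ F : t.1 = p}` (`W` finite; every `t ∈ F` has `t.1 ∈ W`); QEE with `ε/2`; the main terms: `(b 2 - a 2)(b 3 - a 3)(b 4 - a 4) Y sM sG/(e² e') ∑_W 1/(n³ k)`, CPS with `X₁ = sN`, `X₂ = sK` (both `→ ∞` by ESZ), `sM sG = Y₂ sN²`. -/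
def QEC_stmt : Prop := QEE_stmt → EQC7_stmt

/-- **QEF** (short; from EQC7).  The form needed by block TAS (helper94): `EQC7_stmt → ∀ R : ℝ, 1 ≤ R → EQF (FR R)`.
Proof.  `mainE a b e c` is the constant of EQC7.  `FR R` is the image of `curry (𝓝[>] 0) atTop` under `(r, N) ↦ (N, r √N, R √N)`; `Filter.eventually_map`, `Filter.eventually_curry_iff`: for all small `r > 0` and then all large `N`.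
EQC7 with `ε/2`: `C, N₀`.  Here `Y Y₂/N = r R` (`N > 0`), so `C (r R)^(3/2) ≤ ε/2` for small `r`.  `Rg η N (r √N) (R √N)` for `r ≤ 1/R ≤ 1`, `N ≥ N₁(r)`: `r √N ≤ R √N`; `R √N ≤ N^η r √N` for large `N`; `r R N ≤ N`; `N^(1 - η) ≤ r R N` for large `N`. -/
def QEF_stmt : Prop := EQC7_stmt → ∀ R : ℝ, 1 ≤ R → EQF (FR R)

end Pool.Agent.T7
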