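import Pool.Agent.helper95.T6.SpecE

set_option autoImplicit false

/-!
# T7, block R: tuples with `p ∣ R`, without classes for `(m, g)`

Output: `RUB_stmt` (from `LFS_stmt`): `#{t ∈ Cen : p ∣ R, p ∤ n} ≤ C S (1/p + ϱ^(3/2) p^(3/4) (1 + p ϱ))`, `S = Y Y₂`, `ϱ = S/N`.
For `p ∣ RR t` and `p ∤ n` the number `Z` is determined modulo `n³ k p` by `(m, g)`: one quadratic congruence for ALL `(m, g)`.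
The dual vectors are the same as in block W (`n³ k` divides `n³ k p`), in the box `C p √H₀ = C √p √(p H₀)`.
Every row is a copy of a landed row of T6 or T6L, named in the docstring.
-/

namespace Pool.Agent.T7

open Finset Pool.Agent.helper3.FT Pool.Agent.T5 Pool.Agent.T6

/-- RUB (output): central tuples with `p ∣ R` -/
def RUB_stmt : Prop :=
  ∃ η : ℝ, 0 < η ∧ η ≤ 1 / 100 ∧ ∀ κ : ℝ, 0 < κ → κ ≤ 1 → ∃ C N₀ : ℝ, 1 ≤ C ∧ ∀ N Y Y₂ : ℝ, N₀ ≤ N → Rg η N Y Y₂ →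
    ∀ p : ℕ, p.Prime → (p : ℝ) ≤ N ^ η → ∀ F : Finset Tpl,
    (∀ t ∈ F, Cen κ N Y Y₂ t ∧ (p : ℤ) ∣ RR t ∧ ¬ p ∣ t.1.1) →
    (F.card : ℝ) ≤ C * (Y * Y₂) * (1 / p + (Y * Y₂ / N) ^ (3 / 2 : ℝ) * (p : ℝ) ^ (3 / 4 : ℝ) * (1 + p * (Y * Y₂ / N)))

/-- the sum of the near points for the modulus `n³ k p` -/
noncomputable def NR (L L' T p n k : ℕ) (a : ℤ × ℤ × ℤ) : ℝ :=
  ∑ h ∈ Ico 1 T, √((nearPts L L' (h * a.1 / ((n : ℝ) ^ 3 * k * p)) (h * a.2.1 / ((n : ℝ) ^ 3 * k * p))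
    (h * a.2.2 / ((n : ℝ) ^ 3 * k * p))).card : ℝ)

/-- **RPC** (short-medium; from RE1, RE2, TR of T5 and WFJ, WWY of T6; copy of EPU, `Pool/Agent/helper47/T6/EPU.lean`).  One pair.
Proof.  RE1 with `q₁ = q₂ = r = 1`, `s = p` gives `a = (α, β, γ)`; RE2 with `c = c' = 0` gives `c₀`.  For `t ∈ F`: `n³ ∣ Z k⁴ + m g k² - g² n²` (`IsT.c1`) and `k p ∣ Z n² - m²`
(TR: `k RR t = Z n² - m²` and `p ∣ RR t`), so `n³ k p ∣ Z - (α m² + β m g + γ g² + c₀)`.  Let `Q = n³ k p`: `Z/Q = (α m² + β m g + γ g²)/Q + c₀/Q + z'`, `z'` an integer.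
`t ↦ (m, g)` is injective on `F` (`0 < Z ≤ V < Q`), `|m| ≤ L`, `|g| ≤ L'`.  Then as EPU: index set `[-2L, 2L] × [-2L', 2L']`, weights `tw L m * tw L' g`, `x(m, g) = (α m² + β m g + γ g²)/Q + (c₀ - V/2)/Q`,
`nd x ≤ V/(2Q) ≤ 1/(8T)` on the image; WFJ; the exponential sums are `TS L L' ![h α/Q, h β/Q, h γ/Q, 0, 0]` times a number of absolute value 1: WWY. -/
def RPC_stmt : Prop :=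
  ∃ C : ℝ, 1 ≤ C ∧ ∀ n k p : ℕ, 1 ≤ n → 1 ≤ k → 1 ≤ p → Nat.Coprime n (k * p) →
    ∃ a : ℤ × ℤ × ℤ, ResG n k 1 1 1 p a.1 a.2.1 a.2.2 ∧ ∀ (L L' T : ℕ) (V : ℝ) (F : Finset Tpl), 1 ≤ L → 1 ≤ L' → 1 ≤ T → 0 < V →
      4 * T * V ≤ (n : ℝ) ^ 3 * k * p → (∀ t ∈ F, IsT t ∧ t.1 = (n, k) ∧ (p : ℤ) ∣ RR t ∧
        |(t.2.1 : ℝ)| ≤ L ∧ |(t.2.2.1 : ℝ)| ≤ L' ∧ 0 < t.2.2.2 ∧ (t.2.2.2 : ℝ) ≤ V) →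
      (F.card : ℝ) ≤ C / T * (L * L' + √(L * L' : ℝ) * NR L L' T p n k a)

/-- **RNP** (medium; copy of END, `Pool/Agent/helper41/T6/END.lean`, with all `P_i = 1` and the modulus `n³ k p`; from WDM, GP, GR, N1, N2, N4).  Near points.
Proof.  `q = n³ k p`.  For a near point `(u, v)` (`|u| ≤ 4M`, `|v| ≤ 4G`): `ξ = h (2 α u + β v) - q round(..)`, `Ξ = h (β u + 2 γ v) - q round(..)`, `|ξ| ≤ q/M`, `|Ξ| ≤ q/G`.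
The `(u, v, ξ, Ξ)` lie in the kernel of the surjective map `ℤ⁴ → (ℤ/q)²`, `(ξ - h (2αu+βv), Ξ - h (βu+2γv))`: if there are four independent vectors: GP with `S = (4M, 4G, q/M, q/G)`: at most `11⁴ · 16`.
Otherwise: `ResG n k 1 1 1 p` implies `ResG n k 1 1 1 1` (`k ∣ k p`), and `n³ k ∣ q` divides `ξ - h (2αu+βv)` and `Ξ - h (βu+2γv)`: WDM gives an injective `ℚ`-linear map to `(A, A', B, X)`, in `InG δ r`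
(`δ ∣ h`), with `n³ A = h v + k² ξ`, `n³ A' = h u + 2 n² ξ + k² Ξ`, `k B = 2 n A' - 5 ξ`, `k X = Ξ`: the four size hypotheses give the norm `≤ ρ`.  GR with `lam = lamb b δ r`. -/
def RNP_stmt : Prop :=
  ∀ (n k M G h δ r p : ℕ) (a : ℤ × ℤ × ℤ) (b ρ : ℝ), 1 ≤ n → 1 ≤ k → 1 ≤ M → 1 ≤ G → 1 ≤ h → 1 ≤ p → Nat.Coprime n k →
    ResG n k 1 1 1 p a.1 a.2.1 a.2.2 → 1 ≤ b → 0 ≤ ρ → 1 ≤ δ → δ ∣ h → Nat.Coprime δ (5 * (n * k)) → (δ : ℤ) ∣ (r : ℤ) * k - n →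
    4 * (h : ℝ) * G / (n : ℝ) ^ 3 + p * ((k : ℝ) ^ 3 / M) ≤ ρ * b ^ 5 →
    4 * (h : ℝ) * M / (n : ℝ) ^ 3 + p * (2 * (n : ℝ) ^ 2 * k / M + (k : ℝ) ^ 3 / G) ≤ ρ * b →
    2 * (n : ℝ) / k * (4 * (h : ℝ) * M / (n : ℝ) ^ 3 + p * (2 * (n : ℝ) ^ 2 * k / M + (k : ℝ) ^ 3 / G)) +
      p * (5 * (n : ℝ) ^ 3 / M) ≤ ρ / b →
    p * ((n : ℝ) ^ 3 / G) ≤ ρ / b ^ 5 →
    ((nearPts M G (h * a.1 / ((n : ℝ) ^ 3 * k * p)) (h * a.2.1 / ((n : ℝ) ^ 3 * k * p)) (h * a.2.2 / ((n : ℝ) ^ 3 * k * p))).card : ℝ) ≤ 234256 ∨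
    ((nearPts M G (h * a.1 / ((n : ℝ) ^ 3 * k * p)) (h * a.2.1 / ((n : ℝ) ^ 3 * k * p)) (h * a.2.2 / ((n : ℝ) ^ 3 * k * p))).card : ℝ) ≤
      (1 + 6 * ρ / lamb b δ r) ^ 3

/-- the sizes of one block -/
structure RB (N K L L' T p : ℕ) (b ρ : ℝ) : Prop where
  N1 : 1 ≤ N
  K1 : 1 ≤ K
  L1 : 1 ≤ L
  L1' : 1 ≤ L'
  T1 : 1 ≤ T
  b1 : 1 ≤ b
  ρ0 : 0 ≤ ρ
  s1 : 32 * (T : ℝ) * L' / (N : ℝ) ^ 3 + p * ((K : ℝ) ^ 3 / L) ≤ ρ * b ^ 5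
  s2 : 32 * (T : ℝ) * L / (N : ℝ) ^ 3 + p * (2 * (N : ℝ) ^ 2 * K / L + (K : ℝ) ^ 3 / L') ≤ ρ * b
  s3 : 4 * (N : ℝ) / K * (32 * (T : ℝ) * L / (N : ℝ) ^ 3 + p * (2 * (N : ℝ) ^ 2 * K / L + (K : ℝ) ^ 3 / L')) +
    p * (5 * (N : ℝ) ^ 3 / L) ≤ ρ / b
  s4 : p * ((N : ℝ) ^ 3 / L') ≤ ρ / b ^ 5

/-- **RSN** (medium; copy of ESN, `Pool/Agent/helper44/T6/ESN.lean`; from RNP, WSM, WDL, `pairs_card`).  The near points of one block.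
Proof.  For `q = (n, k) ∈ W` and `1 ≤ h < T`: RNP with `δ = dl y₀ h (n k)` (divides `h`, coprime to `5 n k` as `y₀ ≥ 5`), `r = rt δ n k` (WDL); the sizes follow from `RB` (`N < 2 n`, `n ≤ N`, `K < 2 k`, `k ≤ K`).
`√near ≤ 484 + (1 + 6 ρ/lamb)^(3/2) ≤ C (1 + (ρ/lamb)^(3/2))`; `∑ 1 ≤ T #pairs ≤ T N K`; WSM with `y = 1`. -/
def RSN_stmt : Prop :=
  ∀ (y₀ B : ℕ) (C₀ τ : ℝ), 5 ≤ y₀ → 1 ≤ C₀ → 0 < τ → τ ≤ 1 / 100 →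
    (∀ b : ℝ, 1 ≤ b → ∀ u : ℕ, ∑ p ∈ PR y₀ u, (√(2 ^ u) / lamb b p.1 p.2) ^ (3 / 2 : ℝ) ≤
      C₀ * (1 + b ^ B * (2 : ℝ) ^ (-(τ * u))) * 4 ^ u) →
    ∃ C : ℝ, 1 ≤ C ∧ ∀ (N K L L' T p : ℕ) (b ρ : ℝ), RB N K L L' T p b ρ → 1 ≤ p →
      ∀ (W : Finset (ℕ × ℕ)) (a : ℕ × ℕ → ℤ × ℤ × ℤ), W ⊆ pairs N K 1 →
      (∀ q ∈ W, ResG q.1 q.2 1 1 1 p (a q).1 (a q).2.1 (a q).2.2) →
      ∑ q ∈ W, NR L L' T p q.1 q.2 (a q) ≤ C *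
        (T * (N * K) + ρ ^ (3 / 2 : ℝ) * ((T : ℝ) ^ (5 / 4 : ℝ) + N * K * (T : ℝ) ^ (1 / 4 : ℝ)) * (1 + b ^ B * (T : ℝ) ^ (-τ)))

/-- **RNU** (medium, numerical; as ENU / WNU, `Pool/Agent/helper78/T6/WNU.lean`, with `d = 1`).  Sizes.
Proof.  `η = min (τ/(100 (B+1))) (1/100)`.  `b = (Y₂/Y)^(1/4)`, `H₀ = S^(5/2)/N²`, `x = √H₀`; at the scale `N`: `sN³ sK = Y H₀`, `x b⁵ = sK³/sM = H₀ sG/sN³`, `x b = sN² sK/sM = H₀ sM/sN³ = sK³/sG`, `x/b = sN³/sM`, `x/b⁵ = sN³/sG`,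
`(sN/sK) b = 1/b`, `sM sG = S²/N`, `sN sK = S^(3/2)/N = H₀ N/S`.  `L = ⌈(6/κ) sM⌉ + 1`, `L' = ⌈8 sG⌉ + 1`, `T = ⌊p N₁³ K₁/(64 Y)⌋ ≍ p H₀`, `ρ = C p x`.  All four sizes are `≍ p x` times `b⁵, b, 1/b, 1/b⁵`.
Main: `N₁K₁ L L'/T ≤ C sN sK sM sG/(p H₀)`, `sN sK sM sG = S H₀`.  Error: `ρ^(3/2) ≤ C (p² H₀)^(3/4) ≤ C (p T)^(3/4)`, so the bracket is at most `C p^(3/4) T (N₁K₁ + T)`, `T ≤ C p H₀ ≤ C p (S/N) N₁K₁`, `√(sM sG) sN sK = S (S/N)^(3/2)`.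
`b^B ≤ N^(η B/4) ≤ T^τ` as `T ≥ N^(1/4)`. -/
def RNU_stmt : Prop :=
  ∀ (B : ℕ) (τ : ℝ), 0 < τ → ∃ η : ℝ, 0 < η ∧ η ≤ 1 / 100 ∧ ∀ κ : ℝ, 0 < κ → κ ≤ 1 → ∃ C₁ N₀ : ℝ, 1 ≤ C₁ ∧
    ∀ N Y Y₂ : ℝ, N₀ ≤ N → Rg η N Y Y₂ → ∀ p : ℕ, 1 ≤ p → (p : ℝ) ≤ N ^ η → ∀ N₁ K₁ : ℕ, Blk (κ ^ 2) 6 N Y Y₂ N₁ K₁ →
    ∃ (L L' T : ℕ) (b ρ : ℝ), RB N₁ K₁ L L' T p b ρ ∧ b ^ B ≤ (T : ℝ) ^ τ ∧ 64 * T * Y ≤ p * ((N₁ : ℝ) ^ 3 * K₁) ∧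
      6 / κ * sM N Y Y₂ ≤ (L : ℝ) ∧ 8 * sG N Y Y₂ ≤ (L' : ℝ) ∧ (N₁ : ℝ) * K₁ * (L * L' / T) ≤ C₁ * (Y * Y₂ / p) ∧
      1 / (T : ℝ) * (√(L * L' : ℝ) * (T * (N₁ * K₁) + ρ ^ (3 / 2 : ℝ) * ((T : ℝ) ^ (5 / 4 : ℝ) + N₁ * K₁ * (T : ℝ) ^ (1 / 4 : ℝ)))) ≤
        C₁ * ((Y * Y₂) * ((Y * Y₂ / N) ^ (3 / 2 : ℝ) * (p : ℝ) ^ (3 / 4 : ℝ) * (1 + p * (Y * Y₂ / N))))

open Classical in
/-- **RUF** (medium; from RPC, RSN, RNU and CZ, CBR of T5, ESZ of T6L; copy of EUB, `Pool/Agent/helper67/T6/EUB.lean`, or of WGF, `Pool/Agent/helper13/T6/WGF.lean`).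
Proof.  LFS gives `y₀, B, C₀, τ`; RNU for `B, τ`.  CBR reduces to one block `N₁, K₁`.  `W = (pairs N₁ K₁ 1)` filtered by `Coprime n p` (for the tuples of `F`: `p ∤ n`, `p` prime; `n, k` coprime, so `Coprime n (k p)`).  For every pair the tuples of `F` over it: RPC with `V = Y`
(CZ: `|m| ≤ (6/κ) sM ≤ L`, `|g| ≤ 8 sG ≤ L'`, `0 < Z ≤ Y`; `4 T Y ≤ p N₁³K₁/16 ≤ p n³ k`).  Sum: `(C/T)(#W L L' + √(L L') ∑_W NR)`, `#W ≤ N₁ K₁`, RSN (`(1 + b^B T^(-τ)) ≤ 2`), RNU. -/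
def RUF_stmt : Prop := LFS_stmt → RUB_stmt

end Pool.Agent.T7
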