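import Pool.Agent.helper88.T7.SpecR7

set_option autoImplicit false

/-! # T7, row ZTT: the total number of classes -/

namespace Pool.Agent.T7

open Finset NumberField Pool.Agent.helper3.FT Pool.Agent.helper47.RA Pool.Agent.T5 Pool.Agent.T6
open scoped nonZeroDivisors

theorem ZTT_SFle {φ ψ : ∀ D : ℤ, Fld D → ℝ} (h : ∀ D E, φ D E ≤ ψ D E) (D : ℤ) : SF φ D ≤ SF ψ D := by
  unfold SF
  split_ifs
  · exact h _ _
  · exact le_rfl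

theorem ZTT_TTle {φ ψ : ∀ D : ℤ, Fld D → ℝ} (h : ∀ D E, φ D E ≤ ψ D E) (N : ℝ) : TT7 φ N ≤ TT7 ψ N := by
  unfold TT7
  exact Finset.sum_le_sum fun D _ => ZTT_SFle h D

theorem ZTT_TTnn {φ : ∀ D : ℤ, Fld D → ℝ} (h : ∀ D E, 0 ≤ φ D E) (N : ℝ) : 0 ≤ TT7 φ N := by
  unfold TT7
  refine Finset.sum_nonneg fun D _ => ?_
  unfold SF
  split_ifs
  · exact h _ _
  · exact le_rfl

theorem ZTT_sqrt (N : ℝ) (hN : 0 ≤ N) (i : ℕ) : √(N / 2 ^ i) = (1 / √2) ^ i * √N := by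
  have h2 : ((1 : ℝ) / √2) ^ 2 = 1 / 2 := by
    rw [div_pow, Real.sq_sqrt (by norm_num)]; norm_num
  have h : N / 2 ^ i = ((1 / √2) ^ i * √N) ^ 2 := by
    rw [mul_pow, Real.sq_sqrt hN, ← pow_mul, mul_comm i 2, pow_mul, h2, one_div, inv_pow]
    field_simp
  rw [h, Real.sqrt_sq (by positivity)]

theorem ZTT_sum (n : ℕ) : ∑ i ∈ range n, ((1 : ℝ) / √2) ^ i ≤ 4 := by
  have h1 : (1 - 1 / √2) * ∑ i ∈ range n, ((1 : ℝ) / √2) ^ i = 1 - (1 / √2) ^ n := mul_neg_geom_sum _ n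
  have h2 : (1 : ℝ) / √2 ≤ 3 / 4 := by
    have : (4 : ℝ) / 3 ≤ √2 := Real.le_sqrt_of_sq_le (by norm_num)
    rw [div_le_iff₀ (by positivity)]
    linarith
  have h3 : (0 : ℝ) ≤ (1 / √2) ^ n := by positivity
  have h4 : (0 : ℝ) ≤ ∑ i ∈ range n, ((1 : ℝ) / √2) ^ i := Finset.sum_nonneg fun i _ => by positivity
  have h5 : (1 / 4) * ∑ i ∈ range n, ((1 : ℝ) / √2) ^ i ≤ (1 - 1 / √2) * ∑ i ∈ range n, ((1 : ℝ) / √2) ^ i :=
    mul_le_mul_of_nonneg_right (by linarith) h4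
  linarith

/-- the first index with `X / 2 ^ I < B` -/
theorem ZTT_idx (X B : ℝ) (hB : 0 < B) : ∃ I : ℕ, X / 2 ^ I < B ∧ ∀ i < I, B ≤ X / 2 ^ i := by
  have h : ∃ I : ℕ, X / 2 ^ I < B := by
    obtain ⟨n, hn⟩ := pow_unbounded_of_one_lt (X / B) (show (1 : ℝ) < 2 by norm_num)
    refine ⟨n, ?_⟩
    rw [div_lt_iff₀ hB] at hn
    rw [div_lt_iff₀ (by positivity)]
    linarith
  classical
  exact ⟨Nat.find h, Nat.find_spec h, fun i hi => not_lt.mp (Nat.find_min h hi)⟩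

/-- all classes of order 5 -/
theorem ZTT_all (h1 : ZDY_stmt) (h2 : ∃ C N₀ : ℝ, 1 ≤ C ∧ ∀ N : ℝ, N₀ ≤ N → TD7 fO N ≤ C * N) :
    ∃ C : ℝ, 1 ≤ C ∧ ∀ X : ℝ, 1 ≤ X → TT7 fO X ≤ C * X := by
  obtain ⟨C, N₁, hC, H⟩ := h2
  have hnn : ∀ D E, 0 ≤ fO D E := fun D E => by unfold fO; positivity
  obtain ⟨B, hB⟩ : ∃ B : ℝ, B = max N₁ 1 := ⟨_, rfl⟩
  have hB1 : 1 ≤ B := by rw [hB]; exact le_max_right _ _
  have hBN : N₁ ≤ B := by rw [hB]; exact le_max_left _ _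
  have hT0 : 0 ≤ TT7 fO B := ZTT_TTnn hnn _
  refine ⟨2 * C + TT7 fO B, by linarith, fun X hX => ?_⟩
  obtain ⟨I, hI1, hI2⟩ := ZTT_idx X B (by linarith)
  have hX0 : 0 < X := by linarith
  rw [(h1 fO hnn).2 X hX0 I]
  have e1 : ∑ i ∈ range I, TD7 fO (X / 2 ^ i) ≤ 2 * C * X := by
    calc ∑ i ∈ range I, TD7 fO (X / 2 ^ i) ≤ ∑ i ∈ range I, C * X * (1 / 2 ^ i) := by
          refine Finset.sum_le_sum fun i hi => ?_
          refine (H (X / 2 ^ i) (hBN.trans (hI2 i (Finset.mem_range.mp hi)))).trans (le_of_eq ?_)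
          ring
      _ = C * X * ∑ i ∈ range I, (1 : ℝ) / 2 ^ i := by rw [Finset.mul_sum]
      _ ≤ C * X * 2 := mul_le_mul_of_nonneg_left (ZL_geo I) (by positivity)
      _ = _ := by ring
  have e2 : TT7 fO (X / 2 ^ I) ≤ TT7 fO B := (h1 fO hnn).1 _ _ hI1.le
  have e3 : TT7 fO B ≤ TT7 fO B * X := le_mul_of_one_le_right hT0 hX
  linarith

theorem ZTT (h1 : ZDY_stmt) (h2 : ZNB_stmt) (h3 : ZTC_stmt) : ZTT_stmt := by
  obtain ⟨-, C', -, hC', ⟨N', hN'⟩, -⟩ := h2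
  obtain ⟨C₁, hC₁, H1⟩ := ZTT_all h1 ⟨C', N', hC', hN'⟩
  obtain ⟨C, N₀, hC, H⟩ := h3
  refine ⟨4 * C + C₁, max 1 (max N₀ 1 ^ (5 / 4 : ℝ)), by linarith, fun N Y hN hY hY2 => ?_⟩
  have hN1 : 1 ≤ N := (le_max_left _ _).trans hN
  have hN0 : 0 < N := by linarith
  have hY0 : 0 < Y := lt_of_lt_of_le (Real.rpow_pos_of_pos hN0 _) hY
  have hY1 : 1 ≤ Y := (Real.one_le_rpow hN1 (by norm_num)).trans hY
  have hnn : ∀ D E, 0 ≤ fC Y D E := fun D E => by unfold fC; positivity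
  -- `Y ^ 2 ≥ N₀`
  have hYsq : N ^ (4 / 5 : ℝ) ≤ Y ^ 2 := by
    have : (N ^ (2 / 5 : ℝ)) ^ 2 = N ^ (4 / 5 : ℝ) := by
      rw [← Real.rpow_natCast, ← Real.rpow_mul hN0.le]; norm_num
    rw [← this]
    exact pow_le_pow_left₀ (by positivity) hY 2
  have hbase : max N₀ 1 ≤ N ^ (4 / 5 : ℝ) := by
    have hm : (0 : ℝ) ≤ max N₀ 1 := le_trans zero_le_one (le_max_right _ _)
    have h5 : max N₀ 1 ^ (5 / 4 : ℝ) ≤ N := (le_max_right _ _).trans hN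
    calc max N₀ 1 = (max N₀ 1 ^ (5 / 4 : ℝ)) ^ (4 / 5 : ℝ) := by
          rw [← Real.rpow_mul hm]; norm_num
      _ ≤ N ^ (4 / 5 : ℝ) := Real.rpow_le_rpow (by positivity) h5 (by norm_num)
  have hYN : N₀ ≤ Y ^ 2 := (le_max_left _ _).trans (hbase.trans hYsq)
  obtain ⟨I, hI1, hI2⟩ := ZTT_idx N (Y ^ 2) (by positivity)
  rw [(h1 (fC Y) hnn).2 N hN0 I]
  have hY3 : Y ^ 2 ≤ Y * √N := by
    rw [pow_two]
    exact mul_le_mul_of_nonneg_left hY2 hY0.le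
  have e1 : ∑ i ∈ range I, TD7 (fC Y) (N / 2 ^ i) ≤ 4 * C * (Y * √N) := by
    calc ∑ i ∈ range I, TD7 (fC Y) (N / 2 ^ i) ≤ ∑ i ∈ range I, C * (Y * √N) * ((1 / √2) ^ i) := by
          refine Finset.sum_le_sum fun i hi => ?_
          have f1 : Y ^ 2 ≤ N / 2 ^ i := hI2 i (Finset.mem_range.mp hi)
          have f2 : N / 2 ^ i ≤ N := div_le_self hN0.le (one_le_pow₀ (by norm_num))
          have f3 : Y ≤ √(N / 2 ^ i) := Real.le_sqrt_of_sq_le f1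
          have f4 : (N / 2 ^ i) ^ (0.395 : ℝ) ≤ Y := by
            calc (N / 2 ^ i) ^ (0.395 : ℝ) ≤ N ^ (0.395 : ℝ) := Real.rpow_le_rpow (by positivity) f2 (by norm_num)
              _ ≤ N ^ (2 / 5 : ℝ) := Real.rpow_le_rpow_of_exponent_le hN1 (by norm_num)
              _ ≤ Y := hY
          refine (H (N / 2 ^ i) Y (hYN.trans f1) f4 f3).trans (le_of_eq ?_)
          rw [ZTT_sqrt N hN0.le i]
          ring
      _ = C * (Y * √N) * ∑ i ∈ range I, ((1 : ℝ) / √2) ^ i := by rw [Finset.mul_sum]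
      _ ≤ C * (Y * √N) * 4 := mul_le_mul_of_nonneg_left (ZTT_sum I) (by positivity)
      _ = _ := by ring
  have e2 : TT7 (fC Y) (N / 2 ^ I) ≤ C₁ * (Y * √N) := by
    have hsub : ∀ D E, fC Y D E ≤ fO D E := by
      intro D E
      unfold fC fO
      have : (CLS E.K Y).ncard ≤ (ORD7 E.K).ncard :=
        Set.ncard_le_ncard (fun c hc => ⟨hc.1, hc.2.1⟩) (Set.toFinite _)
      exact_mod_cast this
    have hnO : ∀ D E, 0 ≤ fO D E := fun D E => by unfold fO; positivity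
    calc TT7 (fC Y) (N / 2 ^ I) ≤ TT7 fO (N / 2 ^ I) := ZTT_TTle hsub _
      _ ≤ TT7 fO (Y ^ 2) := (h1 fO hnO).1 _ _ hI1.le
      _ ≤ C₁ * Y ^ 2 := H1 _ (one_le_pow₀ hY1)
      _ ≤ C₁ * (Y * √N) := mul_le_mul_of_nonneg_left hY3 (by linarith)
  linarith

end Pool.Agent.T7
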